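import Mathlib

/-! # Balanced bugs maximise the diameter over the average distance

Among the connected graphs on `n` vertices with diameter `D ≥ 2` the balanced bug with
`p = n - D + 2` has the least sum of distances. Indeed, let `w₀, …, w_D` be a geodesic between two
vertices at distance `D`. A vertex `w` off the geodesic has `d(w, wᵢ) ≥ 1` and
`d(w, wᵢ) + d(w, w_{D-i}) ≥ |D - 2i|`, so, with `c = ⌊D/2⌋`,
`d(w, wᵢ) + d(w, w_{D-i}) ≥ max 1 |i - c| + max 1 |D - i - c|`, and the sum over `i` gives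
`∑ d(w, wᵢ) ≥ ∑ max 1 |i - c|`, with equality for the vertices off the long geodesic of the
balanced bug; these are pairwise adjacent. So in each class of fixed diameter `D ≥ 2` a balanced
bug has the largest ratio; the complete graph has ratio `1`, which every bug reaches; and the best
of the finitely many balanced bugs on `n` vertices maximises the ratio. -/

namespace Pool.Agent.Results.MP_aedb6c_co.BalancedBugs

open Finset

/-- The `p + k₁ + k₂` vertices of `Bug p k₁ k₂`: those of `K_p`, those of the first path,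
those of the second path. -/
abbrev BugV (p k₁ k₂ : ℕ) : Type := Fin p ⊕ (Fin k₁ ⊕ Fin k₂)

/-- The edges of `Bug p k₁ k₂`, before symmetrisation.  The edge `uv` removed from `K_p` is the
one between `u = 0` and `v = 1`; the first path `0, 1, …, k₁ - 1` is joined to `u` by its end `0`,
the second path `0, 1, …, k₂ - 1` is joined to `v` by its end `0`. -/
def bugRel (p k₁ k₂ : ℕ) : BugV p k₁ k₂ → BugV p k₁ k₂ → Prop
  | .inl a, .inl b => ¬ (a.val ≤ 1 ∧ b.val ≤ 1)
  | .inl a, .inr (.inl i) => a.val = 0 ∧ i.val = 0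
  | .inl a, .inr (.inr j) => a.val = 1 ∧ j.val = 0
  | .inr (.inl i), .inr (.inl i') => i'.val = i.val + 1
  | .inr (.inr j), .inr (.inr j') => j'.val = j.val + 1
  | _, _ => False

/-- The bug `Bug_{p,k₁,k₂}`: `K_p` minus the edge `uv`, with a path on `k₁` new vertices attached
to `u` and a path on `k₂` new vertices attached to `v`. -/
def Bug (p k₁ k₂ : ℕ) : SimpleGraph (BugV p k₁ k₂) := SimpleGraph.fromRel (bugRel p k₁ k₂)

/-- The average distance: the mean of `d(u,v)` over the `n(n-1)` ordered pairs of distinct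
vertices (the diagonal terms are zero), which is the mean over unordered pairs. -/
noncomputable def avgDist {V : Type} [Fintype V] (G : SimpleGraph V) : ℝ :=
  (∑ u : V, ∑ v : V, (G.dist u v : ℝ)) / ((Fintype.card V : ℝ) * ((Fintype.card V : ℝ) - 1))

/-- The ratio of the diameter to the average distance. -/
noncomputable def ratio {V : Type} [Fintype V] (G : SimpleGraph V) : ℝ :=
  (G.diam : ℝ) / avgDist G

/-! ### Positions in the bug -/

/-- The position of a vertex of the bug along its long geodesic. -/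
def pos (p k₁ k₂ : ℕ) : BugV p k₁ k₂ → ℕ
  | .inl a => if a.val = 0 then k₁ else if a.val = 1 then k₁ + 2 else k₁ + 1
  | .inr (.inl i) => k₁ - 1 - i.val
  | .inr (.inr j) => k₁ + 3 + j.val

lemma bug_adj (p k₁ k₂ : ℕ) (x y : BugV p k₁ k₂) :
    (Bug p k₁ k₂).Adj x y ↔
      x ≠ y ∧ pos p k₁ k₂ x ≤ pos p k₁ k₂ y + 1 ∧ pos p k₁ k₂ y ≤ pos p k₁ k₂ x + 1 := by
  rcases x with a | i | j <;> rcases y with b | i' | j' <;>
    simp only [Bug, SimpleGraph.fromRel_adj, bugRel, pos, ne_eq, Sum.inl.injEq, Sum.inr.injEq,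
      Fin.ext_iff, reduceCtorEq, not_false_eq_true, true_and, or_false, false_or, or_self,
      and_false, false_iff] <;>
    (try split_ifs) <;> omega

/-- The vertices of the long geodesic. -/
def qv (p k₁ k₂ : ℕ) (hp : 3 ≤ p) (i : ℕ) : BugV p k₁ k₂ :=
  if h : i < k₁ then .inr (.inl ⟨k₁ - 1 - i, by omega⟩)
  else if i = k₁ then .inl ⟨0, by omega⟩
  else if i = k₁ + 1 then .inl ⟨2, by omega⟩
  else if h : k₁ + 3 ≤ i ∧ i < k₁ + 3 + k₂ then .inr (.inr ⟨i - k₁ - 3, by omega⟩)
  else .inl ⟨1, by omega⟩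

lemma pos_qv (p k₁ k₂ : ℕ) (hp : 3 ≤ p) {i : ℕ} (hi : i ≤ k₁ + k₂ + 2) :
    pos p k₁ k₂ (qv p k₁ k₂ hp i) = i := by
  unfold qv
  split_ifs with h1 h2 h3 h4
  · simp only [pos]; omega
  · simp [pos, h2]
  · simp [pos, h3]
  · simp only [pos]; omega
  · simp only [pos]; simp; omega

lemma pos_le (p k₁ k₂ : ℕ) (x : BugV p k₁ k₂) : pos p k₁ k₂ x ≤ k₁ + k₂ + 2 := by
  rcases x with a | i | j
  · simp only [pos]; split_ifs <;> omega
  · simp only [pos]; omega
  · have := j.isLt
    simp only [pos]; omega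

/-- A vertex with the position of an end or of a path vertex is that vertex. -/
lemma pos_outside (p k₁ k₂ : ℕ) (hp : 3 ≤ p) (x : BugV p k₁ k₂)
    (hx : ∀ i ∈ range (k₁ + k₂ + 3), qv p k₁ k₂ hp i ≠ x) : pos p k₁ k₂ x = k₁ + 1 := by
  have key := hx (pos p k₁ k₂ x) (by have := pos_le p k₁ k₂ x; simp; omega)
  rcases x with a | i | j
  · simp only [pos] at key ⊢
    split_ifs at key ⊢ with h1 h2
    · exfalso; apply key
      simp [qv, Fin.ext_iff, h1]
    · exfalso; apply key
      simp [qv, Fin.ext_iff, h2]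
    · rfl
  · exfalso; apply key
    have := i.isLt
    simp only [pos]
    unfold qv
    rw [dif_pos (by omega)]
    congr 2
    ext
    simp
    omega
  · exfalso; apply key
    have := j.isLt
    simp only [pos]
    unfold qv
    rw [dif_neg (by omega), if_neg (by omega), if_neg (by omega), dif_pos (by omega)]
    congr 2
    ext
    simp
    omega

/-- Reachability and the upper bound for distances in the bug, first form. -/
lemma bug_walk (p k₁ k₂ : ℕ) (hp : 3 ≤ p) (k : ℕ) : ∀ x y : BugV p k₁ k₂,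
    pos p k₁ k₂ y = pos p k₁ k₂ x + (k + 1) →
    ∃ w : (Bug p k₁ k₂).Walk x y, w.length ≤ k + 1 := by
  induction k with
  | zero =>
    intro x y h
    have hadj : (Bug p k₁ k₂).Adj x y := by
      rw [bug_adj]
      refine ⟨?_, by omega, by omega⟩
      rintro rfl; omega
    exact ⟨hadj.toWalk, by simp⟩
  | succ k ih =>
    intro x y h
    have hy := pos_le p k₁ k₂ y
    set z := qv p k₁ k₂ hp (pos p k₁ k₂ x + 1) with hz
    have hpz : pos p k₁ k₂ z = pos p k₁ k₂ x + 1 := pos_qv p k₁ k₂ hp (by omega)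
    have hadj : (Bug p k₁ k₂).Adj x z := by
      rw [bug_adj]
      refine ⟨?_, by omega, by omega⟩
      intro he; rw [← he] at hpz; omega
    obtain ⟨w, hw⟩ := ih z y (by omega)
    exact ⟨SimpleGraph.Walk.cons hadj w, by simp; omega⟩

lemma bug_walk' (p k₁ k₂ : ℕ) (hp : 3 ≤ p) (x y : BugV p k₁ k₂) (hxy : x ≠ y) :
    ∃ w : (Bug p k₁ k₂).Walk x y, w.length ≤
      max 1 (max (pos p k₁ k₂ x - pos p k₁ k₂ y) (pos p k₁ k₂ y - pos p k₁ k₂ x)) := by
  rcases lt_trichotomy (pos p k₁ k₂ x) (pos p k₁ k₂ y) with h | h | h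
  · obtain ⟨w, hw⟩ := bug_walk p k₁ k₂ hp (pos p k₁ k₂ y - pos p k₁ k₂ x - 1) x y (by omega)
    exact ⟨w, by omega⟩
  · have hadj : (Bug p k₁ k₂).Adj x y := by
      rw [bug_adj]
      exact ⟨hxy, by omega, by omega⟩
    exact ⟨hadj.toWalk, by simp⟩
  · obtain ⟨w, hw⟩ := bug_walk p k₁ k₂ hp (pos p k₁ k₂ x - pos p k₁ k₂ y - 1) y x (by omega)
    exact ⟨w.reverse, by simp only [SimpleGraph.Walk.length_reverse]; omega⟩

lemma bug_connected (p k₁ k₂ : ℕ) (hp : 3 ≤ p) : (Bug p k₁ k₂).Connected := by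
  have : Nonempty (BugV p k₁ k₂) := ⟨.inl ⟨0, by omega⟩⟩
  refine SimpleGraph.Connected.mk ?_
  intro x y
  by_cases hxy : x = y
  · subst hxy; exact SimpleGraph.Reachable.refl x
  · obtain ⟨w, _⟩ := bug_walk' p k₁ k₂ hp x y hxy
    exact ⟨w⟩

lemma bug_dist_le (p k₁ k₂ : ℕ) (hp : 3 ≤ p) (x y : BugV p k₁ k₂) (hxy : x ≠ y) :
    (Bug p k₁ k₂).dist x y ≤
      max 1 (max (pos p k₁ k₂ x - pos p k₁ k₂ y) (pos p k₁ k₂ y - pos p k₁ k₂ x)) := by
  obtain ⟨w, hw⟩ := bug_walk' p k₁ k₂ hp x y hxy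
  exact (SimpleGraph.dist_le w).trans hw

lemma pos_walk (p k₁ k₂ : ℕ) {x y : BugV p k₁ k₂} (w : (Bug p k₁ k₂).Walk x y) :
    pos p k₁ k₂ y ≤ pos p k₁ k₂ x + w.length := by
  induction w with
  | nil => simp
  | cons h w ih =>
    have := ((bug_adj p k₁ k₂ _ _).1 h).2
    simp only [SimpleGraph.Walk.length_cons]
    omega

lemma bug_diam_ge (p k₁ k₂ : ℕ) (hp : 3 ≤ p) : k₁ + k₂ + 2 ≤ (Bug p k₁ k₂).diam := by
  have hc := bug_connected p k₁ k₂ hp
  have := hc.nonempty
  obtain ⟨w, hw⟩ := hc.exists_walk_length_eq_dist (qv p k₁ k₂ hp 0) (qv p k₁ k₂ hp (k₁ + k₂ + 2))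
  have h1 := pos_walk p k₁ k₂ w
  have e0 := pos_qv p k₁ k₂ hp (i := 0) (by omega)
  have e1 := pos_qv p k₁ k₂ hp (i := k₁ + k₂ + 2) le_rfl
  rw [e0, e1, hw] at h1
  have h2 := SimpleGraph.dist_le_diam (SimpleGraph.connected_iff_ediam_ne_top.1 hc)
    (u := qv p k₁ k₂ hp 0) (v := qv p k₁ k₂ hp (k₁ + k₂ + 2))
  omega

/-! ### Splitting the distance sum along a path -/

section split

variable {V : Type} [Fintype V] [DecidableEq V]

lemma split_sum (f : V → V → ℕ) (hf : ∀ x y, f x y = f y x) (N : ℕ) (w : ℕ → V)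
    (hw : Set.InjOn w (range N : Finset ℕ)) :
    (∑ x, ∑ y, f x y) = (∑ i ∈ range N, ∑ j ∈ range N, f (w i) (w j))
      + 2 * (∑ x ∈ ((range N).image w)ᶜ, ∑ i ∈ range N, f x (w i))
      + ∑ x ∈ ((range N).image w)ᶜ, ∑ y ∈ ((range N).image w)ᶜ, f x y := by
  set R := (range N).image w with hR
  have hsplit : ∀ g : V → ℕ, (∑ x, g x) = (∑ i ∈ range N, g (w i)) + ∑ x ∈ Rᶜ, g x := by
    intro g
    rw [← Finset.sum_add_sum_compl R g, hR, Finset.sum_image (fun a ha b hb h => hw ha hb h)]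
  rw [hsplit]
  have h1 : (∑ i ∈ range N, ∑ y, f (w i) y)
      = (∑ i ∈ range N, ∑ j ∈ range N, f (w i) (w j))
        + ∑ x ∈ Rᶜ, ∑ i ∈ range N, f x (w i) := by
    rw [Finset.sum_comm (s := Rᶜ), ← Finset.sum_add_distrib]
    refine Finset.sum_congr rfl fun i _ => ?_
    rw [hsplit]
    congr 1
    exact Finset.sum_congr rfl fun x _ => hf _ _
  have h2 : (∑ x ∈ Rᶜ, ∑ y, f x y)
      = (∑ x ∈ Rᶜ, ∑ i ∈ range N, f x (w i)) + ∑ x ∈ Rᶜ, ∑ y ∈ Rᶜ, f x y := by
    rw [← Finset.sum_add_distrib]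
    exact Finset.sum_congr rfl fun x _ => hsplit _
  rw [h1, h2]
  ring

omit [Fintype V] in
lemma diag_sum (S : Finset V) :
    (∑ x ∈ S, ∑ y ∈ S, if x = y then 1 else 0) = S.card := by
  have : ∀ x ∈ S, (∑ y ∈ S, if x = y then 1 else 0) = 1 := by
    intro x hx
    rw [Finset.sum_ite_eq]
    simp [hx]
  rw [Finset.sum_congr rfl this]
  simp

end split

/-- The sum of distances between path vertices. -/
def pathSum (N : ℕ) : ℕ := ∑ i ∈ range N, ∑ j ∈ range N, max (i - j) (j - i)

/-- The least possible sum of the distances from an outer vertex to the path. -/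
def starSum (N c : ℕ) : ℕ := ∑ i ∈ range N, max 1 (max (i - c) (c - i))

/-! ### The lower bound -/

lemma exists_geodesic {V : Type} [Fintype V] (G : SimpleGraph V) (hG : G.Connected) :
    ∃ w : ℕ → V, ∀ i j, i ≤ G.diam → j ≤ G.diam → G.dist (w i) (w j) = max (i - j) (j - i) := by
  have := hG.nonempty
  obtain ⟨u, v, huv⟩ := G.exists_dist_eq_diam
  obtain ⟨q, hq⟩ := hG.exists_walk_length_eq_dist u v
  have hlen : q.length = G.diam := by omega
  have hstep : ∀ k i, i + k ≤ G.diam → G.dist (q.getVert i) (q.getVert (i + k)) ≤ k := by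
    intro k
    induction k with
    | zero => intro i _; simp
    | succ k ih =>
      intro i hi
      have h1 := ih i (by omega)
      have h2 : G.Adj (q.getVert (i + k)) (q.getVert (i + k + 1)) :=
        q.adj_getVert_succ (by omega)
      have h3 : G.dist (q.getVert (i + k)) (q.getVert (i + k + 1)) = 1 :=
        SimpleGraph.dist_eq_one_iff_adj.2 h2
      have h4 := hG.dist_triangle (u := q.getVert i) (v := q.getVert (i + k))
        (w := q.getVert (i + k + 1))
      have h5 : i + (k + 1) = i + k + 1 := by ring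
      rw [h5]
      omega
  have heq : ∀ k i, i + k ≤ G.diam → G.dist (q.getVert i) (q.getVert (i + k)) = k := by
    intro k i hi
    refine le_antisymm (hstep k i hi) ?_
    have h1 := hstep i 0 (by omega)
    have h2 := hstep (G.diam - (i + k)) (i + k) (by omega)
    have h3 : i + k + (G.diam - (i + k)) = G.diam := by omega
    rw [h3] at h2
    have h4 : q.getVert 0 = u := q.getVert_zero
    have h5 : q.getVert G.diam = v := by rw [← hlen]; exact q.getVert_length
    rw [h4, zero_add] at h1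
    rw [h5] at h2
    have h6 := hG.dist_triangle (u := u) (v := q.getVert i) (w := v)
    have h7 := hG.dist_triangle (u := q.getVert i) (v := q.getVert (i + k)) (w := v)
    omega
  refine ⟨q.getVert, fun i j hi hj => ?_⟩
  rcases le_total i j with h | h
  · obtain ⟨k, rfl⟩ := Nat.exists_eq_add_of_le h
    rw [heq k i hj]
    omega
  · obtain ⟨k, rfl⟩ := Nat.exists_eq_add_of_le h
    rw [SimpleGraph.dist_comm, heq k j hi]
    omega

/-- The lower bound for the sum of distances of a graph with given diameter. -/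
lemma lower {V : Type} [Fintype V] (G : SimpleGraph V) (hG : G.Connected) :
    ∃ m : ℕ, G.diam + 1 + m = Fintype.card V ∧
      pathSum (G.diam + 1) + 2 * (m * starSum (G.diam + 1) (G.diam / 2)) + m * m
        ≤ (∑ x : V, ∑ y : V, G.dist x y) + m := by
  classical
  obtain ⟨w, hw⟩ := exists_geodesic G hG
  set D := G.diam with hD
  have hinj : Set.InjOn w (range (D + 1) : Finset ℕ) := by
    intro i hi j hj hij
    simp only [coe_range, Set.mem_Iio] at hi hj
    have h1 := hw i j (by omega) (by omega)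
    rw [hij, SimpleGraph.dist_self] at h1
    omega
  set R := (range (D + 1)).image w with hR
  have hcard : R.card = D + 1 := by
    rw [hR, Finset.card_image_of_injOn hinj, card_range]
  refine ⟨Rᶜ.card, ?_, ?_⟩
  · rw [Finset.card_compl, hcard]
    have := Finset.card_le_univ R
    omega
  rw [split_sum (fun x y => G.dist x y) (fun x y => G.dist_comm) (D + 1) w hinj, ← hR]
  have h1 : (∑ i ∈ range (D + 1), ∑ j ∈ range (D + 1), G.dist (w i) (w j)) = pathSum (D + 1) := by
    unfold pathSum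
    refine Finset.sum_congr rfl fun i hi => Finset.sum_congr rfl fun j hj => ?_
    simp only [mem_range] at hi hj
    exact hw i j (by omega) (by omega)
  have h2 : Rᶜ.card * starSum (D + 1) (D / 2)
      ≤ ∑ x ∈ Rᶜ, ∑ i ∈ range (D + 1), G.dist x (w i) := by
    rw [← smul_eq_mul]
    refine Finset.card_nsmul_le_sum _ _ _ fun x hx => ?_
    have hne : ∀ i ∈ range (D + 1), 1 ≤ G.dist x (w i) := by
      intro i hi
      have : x ≠ w i := by
        rintro rfl
        exact (Finset.mem_compl.1 hx) (Finset.mem_image_of_mem w hi)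
      exact hG.pos_dist_of_ne this
    have hrefl : ∀ g : ℕ → ℕ, 2 * (∑ i ∈ range (D + 1), g i)
        = ∑ i ∈ range (D + 1), (g i + g (D - i)) := by
      intro g
      rw [Finset.sum_add_distrib, two_mul]
      congr 1
      have := Finset.sum_range_reflect g (D + 1)
      simpa using this.symm
    have hmain : 2 * starSum (D + 1) (D / 2) ≤ 2 * ∑ i ∈ range (D + 1), G.dist x (w i) := by
      unfold starSum
      rw [hrefl, hrefl]
      refine Finset.sum_le_sum fun i hi => ?_
      have hi' : i < D + 1 := mem_range.1 hi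
      have e1 := hne i hi
      have e2 := hne (D - i) (mem_range.2 (by omega))
      have e3 := hw i (D - i) (by omega) (by omega)
      have e4 := hG.dist_triangle (u := w i) (v := x) (w := w (D - i))
      rw [G.dist_comm (u := w i) (v := x)] at e4
      omega
    omega
  have h3 : Rᶜ.card * Rᶜ.card ≤ (∑ x ∈ Rᶜ, ∑ y ∈ Rᶜ, G.dist x y) + Rᶜ.card := by
    have := diag_sum Rᶜ
    calc Rᶜ.card * Rᶜ.card = ∑ x ∈ Rᶜ, ∑ y ∈ Rᶜ, 1 := by simp
      _ ≤ ∑ x ∈ Rᶜ, ∑ y ∈ Rᶜ, (G.dist x y + if x = y then 1 else 0) := by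
          refine Finset.sum_le_sum fun x _ => Finset.sum_le_sum fun y _ => ?_
          split_ifs with h
          · omega
          · have := hG.pos_dist_of_ne h
            omega
      _ = (∑ x ∈ Rᶜ, ∑ y ∈ Rᶜ, G.dist x y) + Rᶜ.card := by
          rw [← this, ← Finset.sum_add_distrib]
          exact Finset.sum_congr rfl fun x _ => Finset.sum_add_distrib
  rw [h1]
  omega

/-! ### The upper bound for the bug -/

lemma upper (p k₁ k₂ m : ℕ) (hp : 3 ≤ p) (hm : p = m + 3) :
    (∑ x : BugV p k₁ k₂, ∑ y : BugV p k₁ k₂, (Bug p k₁ k₂).dist x y) + m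
      ≤ pathSum (k₁ + k₂ + 3) + 2 * (m * starSum (k₁ + k₂ + 3) (k₁ + 1)) + m * m := by
  classical
  set N := k₁ + k₂ + 3 with hN
  set w := qv p k₁ k₂ hp with hw
  have hpw : ∀ i, i < N → pos p k₁ k₂ (w i) = i := fun i hi => pos_qv p k₁ k₂ hp (by omega)
  have hinj : Set.InjOn w (range N : Finset ℕ) := by
    intro i hi j hj hij
    simp only [coe_range, Set.mem_Iio] at hi hj
    rw [← hpw i hi, ← hpw j hj, hij]
  set R := (range N).image w with hR
  have hcard : R.card = N := by
    rw [hR, Finset.card_image_of_injOn hinj, card_range]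
  have hcm : Rᶜ.card = m := by
    rw [Finset.card_compl, hcard]
    simp only [BugV, Fintype.card_sum, Fintype.card_fin]
    omega
  have hout : ∀ x ∈ Rᶜ, pos p k₁ k₂ x = k₁ + 1 := by
    intro x hx
    refine pos_outside p k₁ k₂ hp x fun i hi h => ?_
    exact (Finset.mem_compl.1 hx) (h ▸ Finset.mem_image_of_mem w hi)
  rw [split_sum (fun x y => (Bug p k₁ k₂).dist x y) (fun x y => (Bug p k₁ k₂).dist_comm) N w hinj,
    ← hR]
  have h1 : (∑ i ∈ range N, ∑ j ∈ range N, (Bug p k₁ k₂).dist (w i) (w j)) ≤ pathSum N := by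
    unfold pathSum
    refine Finset.sum_le_sum fun i hi => Finset.sum_le_sum fun j hj => ?_
    simp only [mem_range] at hi hj
    by_cases hij : i = j
    · subst hij; simp
    · have hne : w i ≠ w j := fun h => hij (hinj (by simpa using hi) (by simpa using hj) h)
      have := bug_dist_le p k₁ k₂ hp (w i) (w j) hne
      rw [hpw i hi, hpw j hj] at this
      omega
  have h2 : (∑ x ∈ Rᶜ, ∑ i ∈ range N, (Bug p k₁ k₂).dist x (w i)) ≤ m * starSum N (k₁ + 1) := by
    rw [← hcm, ← smul_eq_mul]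
    refine Finset.sum_le_card_nsmul _ _ _ fun x hx => ?_
    unfold starSum
    refine Finset.sum_le_sum fun i hi => ?_
    have hne : x ≠ w i := by
      rintro rfl
      exact (Finset.mem_compl.1 hx) (Finset.mem_image_of_mem w hi)
    have := bug_dist_le p k₁ k₂ hp x (w i) hne
    rw [hout x hx, hpw i (mem_range.1 hi)] at this
    omega
  have h3 : (∑ x ∈ Rᶜ, ∑ y ∈ Rᶜ, (Bug p k₁ k₂).dist x y) + m ≤ m * m := by
    have := diag_sum Rᶜ
    rw [← hcm]
    calc (∑ x ∈ Rᶜ, ∑ y ∈ Rᶜ, (Bug p k₁ k₂).dist x y) + Rᶜ.card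
        = ∑ x ∈ Rᶜ, ∑ y ∈ Rᶜ, ((Bug p k₁ k₂).dist x y + if x = y then 1 else 0) := by
          rw [← this, ← Finset.sum_add_distrib]
          exact Finset.sum_congr rfl fun x _ => Finset.sum_add_distrib.symm
      _ ≤ ∑ x ∈ Rᶜ, ∑ y ∈ Rᶜ, 1 := by
          refine Finset.sum_le_sum fun x hx => Finset.sum_le_sum fun y hy => ?_
          split_ifs with h
          · subst h; simp
          · have := bug_dist_le p k₁ k₂ hp x y h
            rw [hout x hx, hout y hy] at this
            omega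
      _ = Rᶜ.card * Rᶜ.card := by simp
  omega

/-! ### Comparison -/

lemma ratio_eq {V : Type} [Fintype V] (G : SimpleGraph V) :
    ratio G = (G.diam : ℝ) * ((Fintype.card V : ℝ) * ((Fintype.card V : ℝ) - 1))
      / ((∑ u : V, ∑ v : V, G.dist u v : ℕ) : ℝ) := by
  unfold ratio avgDist
  push_cast
  rw [div_div_eq_mul_div]

lemma ratio_mono {V W : Type} [Fintype V] [Fintype W] (G : SimpleGraph V) (H : SimpleGraph W)
    (hc : Fintype.card V = Fintype.card W) (hn : 1 ≤ Fintype.card W) (hd : G.diam ≤ H.diam)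
    (hs : (∑ u : W, ∑ v : W, H.dist u v) ≤ ∑ u : V, ∑ v : V, G.dist u v)
    (hpos : 0 < ∑ u : W, ∑ v : W, H.dist u v) : ratio G ≤ ratio H := by
  rw [ratio_eq, ratio_eq, hc]
  have h1 : (1 : ℝ) ≤ (Fintype.card W : ℝ) := by exact_mod_cast hn
  have h2 : (0 : ℝ) < ((∑ u : W, ∑ v : W, H.dist u v : ℕ) : ℝ) := by exact_mod_cast hpos
  have h3 : ((∑ u : W, ∑ v : W, H.dist u v : ℕ) : ℝ) ≤ ((∑ u : V, ∑ v : V, G.dist u v : ℕ) : ℝ) :=
    by exact_mod_cast hs
  have h4 : (G.diam : ℝ) ≤ (H.diam : ℝ) := by exact_mod_cast hd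
  have h5 : (0 : ℝ) ≤ (Fintype.card W : ℝ) * ((Fintype.card W : ℝ) - 1) :=
    mul_nonneg (by linarith) (by linarith)
  have h6 : (G.diam : ℝ) * ((Fintype.card W : ℝ) * ((Fintype.card W : ℝ) - 1))
      ≤ (H.diam : ℝ) * ((Fintype.card W : ℝ) * ((Fintype.card W : ℝ) - 1)) :=
    mul_le_mul_of_nonneg_right h4 h5
  exact div_le_div₀ (mul_nonneg (by positivity) h5) h6 h2 h3

/-- Among connected graphs of diameter `D ≥ 2`, the balanced bug has the largest ratio. -/
lemma fixed_diameter {V : Type} [Fintype V] (G : SimpleGraph V) (hG : G.Connected)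
    (p k₁ k₂ : ℕ) (hp : 3 ≤ p) (hn : p + k₁ + k₂ = Fintype.card V)
    (hb₁ : k₁ ≤ k₂) (hb₂ : k₂ ≤ k₁ + 1) (hD : G.diam = k₁ + k₂ + 2) :
    ratio G ≤ ratio (Bug p k₁ k₂) := by
  obtain ⟨m, hm, hlow⟩ := lower G hG
  have hup := upper p k₁ k₂ m hp (by omega)
  have hc : G.diam / 2 = k₁ + 1 := by omega
  have hN : G.diam + 1 = k₁ + k₂ + 3 := by omega
  rw [hc, hN] at hlow
  have hcard : Fintype.card V = Fintype.card (BugV p k₁ k₂) := by
    simp only [BugV, Fintype.card_sum, Fintype.card_fin]; omega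
  refine ratio_mono G (Bug p k₁ k₂) hcard ?_ ?_ (by omega) ?_
  · rw [← hcard]; omega
  · rw [hD]; exact bug_diam_ge p k₁ k₂ hp
  · have hcon := bug_connected p k₁ k₂ hp
    have hx : (qv p k₁ k₂ hp 0) ≠ (qv p k₁ k₂ hp 1) := by
      intro h
      have h0 := pos_qv p k₁ k₂ hp (i := 0) (by omega)
      have h1 := pos_qv p k₁ k₂ hp (i := 1) (by omega)
      rw [h] at h0; omega
    have h1 := hcon.pos_dist_of_ne hx
    calc 0 < (Bug p k₁ k₂).dist (qv p k₁ k₂ hp 0) (qv p k₁ k₂ hp 1) := h1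
      _ ≤ ∑ v, (Bug p k₁ k₂).dist (qv p k₁ k₂ hp 0) v :=
          Finset.single_le_sum (f := fun v => (Bug p k₁ k₂).dist (qv p k₁ k₂ hp 0) v)
            (fun _ _ => Nat.zero_le _) (mem_univ _)
      _ ≤ ∑ u, ∑ v, (Bug p k₁ k₂).dist u v :=
          Finset.single_le_sum (f := fun u => ∑ v, (Bug p k₁ k₂).dist u v)
            (fun _ _ => Nat.zero_le _) (mem_univ _)

lemma offdiag_sum {V : Type} [Fintype V] (f : V → V → ℕ) (c : ℕ)
    (h0 : ∀ x, f x x = 0) :
    ((∀ x y, x ≠ y → c ≤ f x y) →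
      c * (Fintype.card V * Fintype.card V) ≤ (∑ x, ∑ y, f x y) + c * Fintype.card V) ∧
    ((∀ x y, x ≠ y → f x y ≤ c) →
      (∑ x, ∑ y, f x y) + c * Fintype.card V ≤ c * (Fintype.card V * Fintype.card V)) := by
  classical
  have hd := diag_sum (Finset.univ : Finset V)
  rw [Finset.card_univ] at hd
  have e1 : (∑ x : V, ∑ y : V, f x y) + c * Fintype.card V
      = ∑ x : V, ∑ y : V, (f x y + c * if x = y then 1 else 0) := by
    rw [← hd, Finset.mul_sum, ← Finset.sum_add_distrib]
    refine Finset.sum_congr rfl fun x _ => ?_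
    rw [Finset.mul_sum, ← Finset.sum_add_distrib]
  have e2 : c * (Fintype.card V * Fintype.card V) = ∑ x : V, ∑ y : V, c := by
    simp only [Finset.sum_const, Finset.card_univ, smul_eq_mul]
    ring
  refine ⟨fun h => ?_, fun h => ?_⟩
  · rw [e1, e2]
    refine Finset.sum_le_sum fun x _ => Finset.sum_le_sum fun y _ => ?_
    split_ifs with hxy
    · simp
    · have := h x y hxy
      omega
  · rw [e1, e2]
    refine Finset.sum_le_sum fun x _ => Finset.sum_le_sum fun y _ => ?_
    split_ifs with hxy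
    · subst hxy; simp [h0]
    · have := h x y hxy
      omega

/-- Every connected graph on at least two vertices has ratio at least `1`. -/
lemma one_le_ratio {V : Type} [Fintype V] (G : SimpleGraph V) (hG : G.Connected)
    (hn : 2 ≤ Fintype.card V) : 1 ≤ ratio G := by
  have := hG.nonempty
  have hup := (offdiag_sum (fun x y => G.dist x y) G.diam (fun x => by simp)).2
    (fun x y _ => SimpleGraph.dist_le_diam (SimpleGraph.connected_iff_ediam_ne_top.1 hG))
  have hlo := (offdiag_sum (fun x y => G.dist x y) 1 (fun x => by simp)).1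
    (fun x y h => hG.pos_dist_of_ne h)
  rw [ratio_eq]
  set T := ∑ x : V, ∑ y : V, G.dist x y with hT
  set n := Fintype.card V with hn'
  have hTpos : 0 < T := by nlinarith
  have hTR : (0 : ℝ) < (T : ℝ) := by exact_mod_cast hTpos
  rw [le_div_iff₀ hTR, one_mul]
  have : ((T + G.diam * n : ℕ) : ℝ) ≤ ((G.diam * (n * n) : ℕ) : ℝ) := by exact_mod_cast hup
  push_cast at this
  nlinarith

/-- A connected graph of diameter at most `1` has ratio at most `1`. -/
lemma ratio_le_one {V : Type} [Fintype V] (G : SimpleGraph V) (hG : G.Connected)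
    (hn : 2 ≤ Fintype.card V) (hD : G.diam ≤ 1) : ratio G ≤ 1 := by
  have hlo := (offdiag_sum (fun x y => G.dist x y) 1 (fun x => by simp)).1
    (fun x y h => hG.pos_dist_of_ne h)
  rw [ratio_eq]
  set T := ∑ x : V, ∑ y : V, G.dist x y with hT
  set n := Fintype.card V with hn'
  have hTpos : 0 < T := by nlinarith
  have hTR : (0 : ℝ) < (T : ℝ) := by exact_mod_cast hTpos
  rw [div_le_iff₀ hTR, one_mul]
  have h1 : ((1 * (n * n) : ℕ) : ℝ) ≤ ((T + 1 * n : ℕ) : ℝ) := by exact_mod_cast hlo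
  push_cast at h1
  have h2 : (G.diam : ℝ) ≤ 1 := by exact_mod_cast hD
  have h3 : (2 : ℝ) ≤ (n : ℝ) := by exact_mod_cast hn
  have h4 : (0 : ℝ) ≤ (n : ℝ) * ((n : ℝ) - 1) := mul_nonneg (by linarith) (by linarith)
  nlinarith

/-- **Answer to Q1 (yes).**  For every `n ≥ 3` the ratio of the diameter to the average distance,
over all connected graphs on `n` vertices, is maximised by a balanced bug on `n` vertices.
Moreover, for every diameter `D` with `2 ≤ D ≤ n - 1`, the balanced bug on `n` vertices with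
`k₁ + k₂ = D - 2` has the largest ratio among the connected graphs on `n` vertices with
diameter `D`. -/
theorem result (n : ℕ) (hn : 3 ≤ n) :
    (∃ p k₁ k₂ : ℕ, 3 ≤ p ∧ p + k₁ + k₂ = n ∧ k₁ ≤ k₂ + 1 ∧ k₂ ≤ k₁ + 1 ∧
      (Bug p k₁ k₂).Connected ∧
      ∀ (V : Type) [Fintype V], Fintype.card V = n → ∀ G : SimpleGraph V, G.Connected →
        ratio G ≤ ratio (Bug p k₁ k₂)) ∧
    (∀ p k₁ k₂ : ℕ, 3 ≤ p → p + k₁ + k₂ = n → k₁ ≤ k₂ → k₂ ≤ k₁ + 1 →
      ∀ (V : Type) [Fintype V], Fintype.card V = n → ∀ G : SimpleGraph V, G.Connected →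
        G.diam = k₁ + k₂ + 2 → ratio G ≤ ratio (Bug p k₁ k₂)) := by
  refine ⟨?_, ?_⟩
  · obtain ⟨D, hD, hmax⟩ := Finset.exists_max_image (Finset.Icc 2 (n - 1))
      (fun D => ratio (Bug (n - D + 1 + 1) (D / 2 - 1) (D - 1 - D / 2)))
      ⟨2, by simp; omega⟩
    rw [Finset.mem_Icc] at hD
    refine ⟨n - D + 1 + 1, D / 2 - 1, D - 1 - D / 2, by omega, by omega, by omega, by omega,
      bug_connected _ _ _ (by omega), ?_⟩
    intro V _ hV G hG
    obtain ⟨m, hm, -⟩ := lower G hG
    by_cases h2 : 2 ≤ G.diam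
    · refine le_trans ?_ (hmax G.diam (by rw [Finset.mem_Icc]; omega))
      exact fixed_diameter G hG _ _ _ (by omega) (by omega) (by omega) (by omega) (by omega)
    · refine (ratio_le_one G hG (by omega) (by omega)).trans ?_
      refine one_le_ratio _ (bug_connected _ _ _ (by omega)) ?_
      simp only [BugV, Fintype.card_sum, Fintype.card_fin]
      omega
  · intro p k₁ k₂ hp hpn hb₁ hb₂ V _ hV G hG hD
    exact fixed_diameter G hG p k₁ k₂ hp (by omega) hb₁ hb₂ hD

end Pool.Agent.Results.MP_aedb6c_co.BalancedBugs
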